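import Mathlib

/-!
# Project OT (MP_050f5b_nt): transcendence of tree constants (helper35)

THEOREM.  `r_n` = the number of rooted unordered trees with `n` vertices, every vertex with at most two children, a vertex with `j`
children having one of `c_j` colours (`c_0, c_2 ≥ 1`).  `R = ∑ r_n x^n`, radius of convergence `1/α`.  Then `α` is transcendental.

Idea.  `u = 1 - c_1 x - c_2 x R(x) = ∑ a_n x^n` satisfies `u(x)² = c u(x²) + L(x)` (`c = c_2`, `L` a quadratic polynomial), `u(ρ) = 0`, `ρ = 1/α`,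
and `W(x) = c u(x²) + L(x)` has a simple zero at `ρ`.  `u` is transcendental over `ℚ(x)`.  Mahler's method at the points `ρ^(2^n)`.

RULES.  Row `XX`: file `Pool/Agent/<seat>/OT/XX.lean`, `import Pool.Agent.helper35.OT.Spec`, `set_option autoImplicit false`,
`namespace Pool.Agent.helper35.OT`, `theorem XX (h1 : YY_stmt) ... : XX_stmt` with any other `_stmt` as hypotheses (no circles).  Helper lemmas
private or named `XX_...`.  No straight double quotes, no convert / congr!, no native_decide.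
-/

set_option autoImplicit false

namespace Pool.Agent.helper35.OT

open Finset

/-! ## Definitions -/

/-- The number of rooted unordered trees with the given number of vertices, every vertex with at most two children; a vertex with
`j` children has one of `c_j` colours.  (A vertex with two children: an unordered pair of trees of sizes `i ≤ n - i`.) -/
def cnt (c0 c1 c2 : ℕ) : ℕ → ℕ
  | 0 => 0
  | n + 1 => (if n = 0 then c0 else 0) + c1 * cnt c0 c1 c2 n +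
      c2 * ∑ i : Fin (n + 1), (if 2 * i.1 < n then cnt c0 c1 c2 i.1 * cnt c0 c1 c2 (n - i.1)
        else if 2 * i.1 = n then (cnt c0 c1 c2 i.1 + 1).choose 2 else 0)
termination_by n => n
decreasing_by all_goals omega

/-- the recursion in the form `2 R = 2 x (c_0 + c_1 R) + c_2 x (R² + R(x²))` -/
def Rc (c0 c1 c2 : ℕ) (r : ℕ → ℕ) : Prop := r 0 = 0 ∧ ∀ n, 2 * r (n + 1) = 2 * (if n = 0 then c0 else 0) + 2 * c1 * r n +
  c2 * (∑ i ∈ range (n + 1), r i * r (n - i) + if n % 2 = 0 then r (n / 2) else 0)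

/-- the series converges at `x` -/
def SM (r : ℕ → ℕ) (x : ℝ) : Prop := Summable fun n => (r n : ℝ) * x ^ n

/-- its value -/
noncomputable def SS (r : ℕ → ℕ) (x : ℝ) : ℝ := ∑' n, (r n : ℝ) * x ^ n

/-- the coefficients of `u = 1 - c_1 x - c_2 x R` -/
def ua (c1 c2 : ℕ) (r : ℕ → ℕ) : ℕ → ℤ
  | 0 => 1
  | n + 1 => -(if n = 0 then (c1 : ℤ) else 0) - c2 * r n

/-- `L = (1 - c_2) - 2 c_1 x + (c_1² + (c_1 - 2 c_0) c_2) x²` -/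
noncomputable def Lam (c0 c1 c2 : ℤ) : Polynomial ℤ :=
  Polynomial.C (1 - c2) + Polynomial.C (-2 * c1) * Polynomial.X +
    Polynomial.C (c1 ^ 2 + (c1 - 2 * c0) * c2) * Polynomial.X ^ 2

/-- what is used about `u = ∑ a_n x^n` -/
structure Dat (a : ℕ → ℤ) (c : ℕ) (L : Polynomial ℤ) (ρ : ℝ) : Prop where
  c1 : 1 ≤ c
  ld : L.natDegree ≤ 2
  fe : ∀ n, ∑ i ∈ range (n + 1), a i * a (n - i) = c * (if n % 2 = 0 then a (n / 2) else 0) + L.coeff n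
  r0 : 0 < ρ
  r1 : ρ < 1
  sm : Summable fun n => |(a n : ℝ)| * ρ ^ n
  z : ∑' n, (a n : ℝ) * ρ ^ n = 0
  d : (Polynomial.derivative (L.map (Int.castRingHom ℝ))).eval ρ +
    2 * c * ρ * ∑' n : ℕ, ((n : ℝ) + 1) * (a (n + 1) : ℝ) * (ρ ^ 2) ^ n ≠ 0

/-- the power series with the coefficients `a` -/
def gs (a : ℕ → ℤ) : PowerSeries ℚ := PowerSeries.mk fun n => (a n : ℚ)

/-- `g(X²)` -/
noncomputable def sq2 (g : PowerSeries ℚ) : PowerSeries ℚ :=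
  PowerSeries.mk fun n => if n % 2 = 0 then PowerSeries.coeff (n / 2) g else 0

/-- `P(X, g)` for `P ∈ ℚ[X][Y]` -/
noncomputable def ev (P : Polynomial (Polynomial ℚ)) (g : PowerSeries ℚ) : PowerSeries ℚ :=
  P.eval₂ Polynomial.coeToPowerSeries.ringHom g

/-- evaluation of `ℚ[X]` at a complex number -/
noncomputable def phx (x : ℂ) : Polynomial ℚ →+* ℂ := Polynomial.eval₂RingHom (algebraMap ℚ ℂ) x

/-- the value of the series `g` at `x` -/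
noncomputable def sv (g : PowerSeries ℚ) (x : ℂ) : ℂ := ∑' n, ((PowerSeries.coeff n g : ℚ) : ℂ) * x ^ n

/-- the polynomial `∑_{i, j ≤ k} e i j X^i Y^j` -/
noncomputable def pol (k : ℕ) (e : ℕ → ℕ → ℤ) : Polynomial (Polynomial ℚ) :=
  ∑ j ∈ range (k + 1), Polynomial.C (∑ i ∈ range (k + 1), Polynomial.C (e i j : ℚ) * Polynomial.X ^ i) * Polynomial.X ^ j

/-- its value at real numbers -/
noncomputable def val (k : ℕ) (e : ℕ → ℕ → ℤ) (x z : ℝ) : ℝ :=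
  ∑ i ∈ range (k + 1), ∑ j ∈ range (k + 1), (e i j : ℝ) * x ^ i * z ^ j

/-! ## Part 1: the tree series -/

/-- RC (short).  The defining recursion, doubled: the sum over `i ≤ n` of `r i r (n-i)` is twice the sum over `2 i < n`
(reflection `i ↦ n - i`) plus `r (n/2)²` for even `n`; `2 * (m + 1).choose 2 = m (m + 1)`. -/
def RC_stmt : Prop := ∀ c0 c1 c2 : ℕ, Rc c0 c1 c2 (cnt c0 c1 c2)

/-- FE (short).  The functional equation of `R`.  Cauchy product (`tsum_mul_tsum_eq_tsum_sum_range_of_summable_norm`); `x² ≤ x`, so the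
series also converges at `x²`, and `∑ (if n even then r (n/2) else 0) x^n = R(x²)`; shift of the index by one (`tsum_eq_zero_add`, `r 0 = 0`). -/
def FE_stmt : Prop := ∀ (c0 c1 c2 : ℕ) (r : ℕ → ℕ) (x : ℝ), Rc c0 c1 c2 r → 0 ≤ x → x ≤ 1 → SM r x →
  SM r (x ^ 2) ∧ SS r x = x * (c0 + c1 * SS r x + c2 / 2 * (SS r x ^ 2 + SS r (x ^ 2)))

/-- MJ (short).  Majorant.  `S_N = ∑_{n<N} r_n x^n`; by the recursion `S_(N+1) ≤ x (c0 + c1 S_N + c2/2 (S_N² + Z))` (all terms are nonnegative, the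
Cauchy product is dominated by `S_N²`, the even terms by `Z`), so `S_N ≤ y` for all `N` by induction; `summable_of_sum_range_le`. -/
def MJ_stmt : Prop := ∀ (c0 c1 c2 : ℕ) (r : ℕ → ℕ) (x y Z : ℝ), Rc c0 c1 c2 r → 0 ≤ x → 0 ≤ y →
  (∀ N, ∑ n ∈ range N, (r n : ℝ) * (x ^ 2) ^ n ≤ Z) → x * (c0 + c1 * y + c2 / 2 * (y ^ 2 + Z)) ≤ y → SM r x ∧ SS r x ≤ y

/-- MS (short).  The radius of convergence is positive: `x = 1/(1 + c0 + c1 + c2)`; by induction `∑_{n<N} r_n x^n ≤ 1` for all `N`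
(as in MJ with `y = 1`, and `∑_{n<N} r_n x^(2n) ≤ ∑_{n<N} r_n x^n ≤ 1` because `x ≤ 1`). -/
def MS_stmt : Prop := ∀ (c0 c1 c2 : ℕ) (r : ℕ → ℕ), Rc c0 c1 c2 r → ∃ x : ℝ, 0 < x ∧ x ≤ 1 ∧ SM r x

/-- D1 (short to medium).  uses `FE_stmt MJ_stmt`.  Put `S = R(x) > 0` (`r 1 = c0`), `Φ(y) = x (c0 + c1 y + c2/2 (y² + R(x²))) - y`, a quadratic polynomial in `y` with
positive leading coefficient `c2 x / 2` and `Φ(S) = 0`, `Φ(0) > 0`.  The other root is `S' = 2 x (c0 + c2/2 R(x²)) / (c2 x S) > 0` (product of the roots), and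
`S + S' = 2 (1 - c1 x)/(c2 x)`.  If `c1 x + c2 x S > 1`, then `S' < S`, and MJ with `y = S'`, `Z = R(x²)` gives `S ≤ S'`: contradiction. -/
def D1_stmt : Prop := ∀ (c0 c1 c2 : ℕ) (r : ℕ → ℕ) (x : ℝ), Rc c0 c1 c2 r → 1 ≤ c0 → 1 ≤ c2 → 0 < x → x ≤ 1 → SM r x →
  c1 * x + c2 * x * SS r x ≤ 1

/-- D2 (short).  uses `FE_stmt`.  At `x = 1`: `y = R(1) ≥ r 1 = c0 ≥ 1` and `y = c0 + c1 y + c2/2 (y² + y) ≥ 1 + (y² + y)/2`, impossible. -/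
def D2_stmt : Prop := ∀ (c0 c1 c2 : ℕ) (r : ℕ → ℕ), Rc c0 c1 c2 r → 1 ≤ c0 → 1 ≤ c2 → ¬ SM r 1

/-- D3 (short to medium).  uses `MS_stmt D1_stmt D2_stmt`.  `D = {x ≥ 0 | SM r x}` is closed downwards (comparison), `1 ∉ D` (D2), so `D` is bounded by 1; `ρ = sSup D > 0` (MS).
For `0 < x < ρ`: `∑_{n<N} r_n x^n ≤ R(x) ≤ 1/x` (D1, `c2 ≥ 1`); `x → ρ` gives `∑_{n<N} r_n ρ^n ≤ 1/ρ` for all `N`, so `ρ ∈ D`, `ρ ≠ 1`. -/
def D3_stmt : Prop := ∀ (c0 c1 c2 : ℕ) (r : ℕ → ℕ), Rc c0 c1 c2 r → 1 ≤ c0 → 1 ≤ c2 →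
  ∃ ρ : ℝ, 0 < ρ ∧ ρ < 1 ∧ ∀ x : ℝ, 0 ≤ x → (SM r x ↔ x ≤ ρ)

/-- D4 (medium).  uses `FE_stmt MJ_stmt D1_stmt`.  `≤` is D1.  Suppose `v = 1 - c1 ρ - c2 ρ R(ρ) > 0`.  For `y = R(ρ) + h`, `Φ(ρ, y) = ρ (c0 + c1 y + c2/2 (y² + R(ρ²))) - y
= -v h + (c2 ρ/2) h² < 0` for small `h > 0` (FE).  `x ↦ R(x²)` is continuous at `ρ` (`ρ² < ρ`; `continuousOn_tsum` on `[0, ρ]`), so `Φ(x, y) ≤ 0` for some `x > ρ` with
`x² ≤ ρ`, `x ≤ 1`; MJ with `Z = R(x²)` gives `SM r x`: contradiction to `x > ρ`. -/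
def D4_stmt : Prop := ∀ (c0 c1 c2 : ℕ) (r : ℕ → ℕ) (ρ : ℝ), Rc c0 c1 c2 r → 1 ≤ c0 → 1 ≤ c2 → 0 < ρ → ρ < 1 →
  (∀ x : ℝ, 0 ≤ x → (SM r x ↔ x ≤ ρ)) → c1 * ρ + c2 * ρ * SS r ρ = 1

/-- UNI (short).  `x ↦ c1 x + c2 x R(x)` is strictly increasing on `[0, ρ]` (`c2 ≥ 1`, `R(x) > 0` increasing; `r 1 = c0 ≥ 1`). -/
def UNI_stmt : Prop := ∀ (c0 c1 c2 : ℕ) (r : ℕ → ℕ) (x y : ℝ), Rc c0 c1 c2 r → 1 ≤ c0 → 1 ≤ c2 → 0 < x → x < y → SM r y →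
  c1 * x + c2 * x * SS r x < c1 * y + c2 * y * SS r y

/-- US (short to medium).  `u² = c2 u(x²) + L` in coefficients, from `Rc` (multiply it by `c2` and shift by 2).  `n = 0`: `1 = c2 + (1 - c2)`.  `n = 1`: `2 a_1 = -2 c1`
(`a 1 = -c1`, `r 0 = 0`).  `n = m + 2`: the terms with `i = 0` and `i = n` give `2 a_n = -2 c2 r_(m+1)` , the others (`i = i' + 1`, `n - i = j' + 1`, `i' + j' = m`)
`∑ (c1 [i'=0] + c2 r_i') (c1 [j'=0] + c2 r_j') = c1² [m=0] + 2 c1 c2 r_m + c2² ∑ r_i' r_j'`; insert `2 r_(m+1)` from `Rc` (the terms `2 c1 c2 r_m` cancel).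
For even `n`: `a (n/2) = -c1 [m = 0] - c2 r (m/2)`.  (Checked by computer.) -/
def US_stmt : Prop := ∀ (c0 c1 c2 : ℕ) (r : ℕ → ℕ), Rc c0 c1 c2 r → ∀ n, ∑ i ∈ range (n + 1), ua c1 c2 r i * ua c1 c2 r (n - i) =
  c2 * (if n % 2 = 0 then ua c1 c2 r (n / 2) else 0) + (Lam c0 c1 c2).coeff n

/-- DN (short to medium).  The derivative is negative: `∑ (n+1) a_(n+1) ρ^(2n) = -c1 - c2 ∑ (n+1) r_n ρ^(2n)` (summable as `ρ² < ρ`), `L'(ρ) = -2 c1 + 2 (c1² + (c1 - 2 c0) c2) ρ`, so the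
left side is `-2 c1 (1 - c1 ρ) - 4 c0 c2 ρ - 2 c2² ρ ∑ (n+1) r_n ρ^(2n) < 0`, as `1 - c1 ρ = c2 ρ R(ρ) ≥ 0`. -/
def DN_stmt : Prop := ∀ (c0 c1 c2 : ℕ) (r : ℕ → ℕ) (ρ : ℝ), 1 ≤ c0 → 1 ≤ c2 → 0 < ρ → ρ < 1 → SM r ρ → c1 * ρ + c2 * ρ * SS r ρ = 1 →
  (Polynomial.derivative ((Lam c0 c1 c2).map (Int.castRingHom ℝ))).eval ρ +
    2 * c2 * ρ * ∑' n : ℕ, ((n : ℝ) + 1) * (ua c1 c2 r (n + 1) : ℝ) * (ρ ^ 2) ^ n < 0

/-- DAT (short).  uses `US_stmt DN_stmt`.  `∑ a_n ρ^n = 1 - c1 ρ - c2 ρ R(ρ) = 0`. -/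
def DAT_stmt : Prop := ∀ (c0 c1 c2 : ℕ) (r : ℕ → ℕ) (ρ : ℝ), Rc c0 c1 c2 r → 1 ≤ c0 → 1 ≤ c2 → 0 < ρ → ρ < 1 → SM r ρ →
  c1 * ρ + c2 * ρ * SS r ρ = 1 → Dat (ua c1 c2 r) c2 (Lam c0 c1 c2) ρ

/-! ## Part 2: the series is transcendental -/

/-- EVL (medium).  Values of `P(X, g)`.  The series with `∑ |coeff| s^n < ∞` are closed under sums and products (Cauchy product), polynomials belong to them, and
`sv` is multiplicative and additive on them for `‖x‖ ≤ s`.  Induction on `P` (`Polynomial.induction_on'` or the sum over the coefficients). -/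
def EVL_stmt : Prop := ∀ (P : Polynomial (Polynomial ℚ)) (g : PowerSeries ℚ) (s : ℝ), 0 < s →
  (Summable fun n => |((PowerSeries.coeff n g : ℚ) : ℝ)| * s ^ n) →
  (Summable fun n => |((PowerSeries.coeff n (ev P g) : ℚ) : ℝ)| * s ^ n) ∧
    ∀ x : ℂ, ‖x‖ ≤ s → sv (ev P g) x = P.eval₂ (phx x) (sv g x)

/-- EO (medium).  Even and odd parts.  `sq2` is a ring homomorphism (coefficients, or `PowerSeries.subst`) with `sq2 X = X²`; write every coefficient of `Q` as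
`b(X) = b0(X²) + X b1(X²)`; this defines `P0, P1 ∈ ℚ[X][Y]` of degree `≤ deg Q`, not both zero, and `ev Q (sq2 g) = sq2 (ev P0 g) + X sq2 (ev P1 g)`.  The even coefficients are those of the first
summand, the odd ones those of the second: both are zero, and `sq2` is injective. -/
def EO_stmt : Prop := ∀ (Q : Polynomial (Polynomial ℚ)) (g : PowerSeries ℚ), Q ≠ 0 → ev Q (sq2 g) = 0 →
  ∃ P : Polynomial (Polynomial ℚ), P ≠ 0 ∧ P.natDegree ≤ Q.natDegree ∧ ev P g = 0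

/-- FLD (medium).  Field theory: `K = RatFunc ℚ` inside `LaurentSeries ℚ` (instance `Algebra (RatFunc F) F⸨X⸩`), `g` and `h` as elements of it.  `g` is algebraic over `K`; `h ∈ K⟮g⟯` by the first equation.
By clearing denominators the last hypothesis says `deg minpoly g ≤ deg minpoly h` (`minpoly.min`/`minpoly.natDegree_le..`, denominators: `IsLocalization.integerNormalization` or
`IsFractionRing`).  So `finrank K K⟮h⟯ = finrank K K⟮g⟯` (`IntermediateField.adjoin.finrank`), `K⟮h⟯ = K⟮g⟯` (`IntermediateField.eq_of_le_of_finrank_le`), `g ∈ K⟮h⟯ = K[h]`, and clear denominators. -/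
def FLD_stmt : Prop := ∀ (g h : PowerSeries ℚ) (c : ℚ) (L : Polynomial ℚ), c ≠ 0 → PowerSeries.C c * h = g ^ 2 - (L : PowerSeries ℚ) →
  (∃ P : Polynomial (Polynomial ℚ), P ≠ 0 ∧ ev P g = 0) →
  (∀ Q : Polynomial (Polynomial ℚ), Q ≠ 0 → ev Q h = 0 → ∃ P : Polynomial (Polynomial ℚ), P ≠ 0 ∧ P.natDegree ≤ Q.natDegree ∧ ev P g = 0) →
  ∃ A : Polynomial ℚ, A ≠ 0 ∧ ∃ B : Polynomial (Polynomial ℚ), (A : PowerSeries ℚ) * g = ev B h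

/-- WAN (medium).  `W(x) = c U(x²) + L(x)`, `U(x) = ∑ a_n x^n = sv (gs a) x` analytic on the ball of radius `ρ` (and continuous up to the boundary; `x² ` maps the ball of radius `√ρ` into it).
`U(x)² = W(x)` for `‖x‖ ≤ ρ` by `fe` and the Cauchy product; at `x = ρ`: `W(ρ) = U(ρ)² = 0` (`z`).  `W'(ρ)` is the number of `d` (`U' = ∑ (n+1) a_(n+1) x^n` inside the disc). -/
def WAN_stmt : Prop := ∀ (a : ℕ → ℤ) (c : ℕ) (L : Polynomial ℤ) (ρ : ℝ), Dat a c L ρ →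
  ∃ W : ℂ → ℂ, AnalyticOnNhd ℂ W (Metric.ball 0 (Real.sqrt ρ)) ∧ W ρ = 0 ∧ deriv W ρ ≠ 0 ∧ ∀ x : ℂ, ‖x‖ < ρ → W x = sv (gs a) x ^ 2

/-- HAN (short to medium).  uses `EVL_stmt`.  `H(x) = B.eval₂ (phx x) (U(x²))`, `U = sv (gs a)`: a finite sum of polynomials in `x` times powers of `U(x²)`.  For `‖x‖ < ρ`: EVL for `sq2 (gs a)`, `s = ρ`
(the coefficients are summable: `ρ^(2n) ≤ ρ^n`), and `sv (sq2 (gs a)) x = U(x²)`. -/
def HAN_stmt : Prop := ∀ (a : ℕ → ℤ) (ρ : ℝ) (B : Polynomial (Polynomial ℚ)), 0 < ρ → ρ < 1 → (Summable fun n => |(a n : ℝ)| * ρ ^ n) →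
  ∃ H : ℂ → ℂ, AnalyticOnNhd ℂ H (Metric.ball 0 (Real.sqrt ρ)) ∧ ∀ x : ℂ, ‖x‖ < ρ → H x = sv (ev B (sq2 (gs a))) x

/-- ORD (medium).  Complex analysis.  `ρ < √ρ`.  `A² W = H²` on the ball of radius `√ρ` by the identity theorem (`AnalyticOnNhd.eqOn_of_preconnected_of_eventuallyEq` at 0).  Orders at `ρ` (`analyticOrderAt`,
`analyticOrderAt_mul`, `analyticOrderAt_pow`): `2 ord A + 1 = 2 ord H`, `ord A` finite (`A ≠ 0`), `ord W = 1` (`W ρ = 0`, `W' ρ ≠ 0`).  Or elementary: divide by powers of `x - ρ`. -/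
def ORD_stmt : Prop := ∀ (ρ : ℝ) (W H : ℂ → ℂ) (A : Polynomial ℂ), 0 < ρ → ρ < 1 → A ≠ 0 →
  AnalyticOnNhd ℂ W (Metric.ball 0 (Real.sqrt ρ)) → AnalyticOnNhd ℂ H (Metric.ball 0 (Real.sqrt ρ)) → W ρ = 0 → deriv W ρ ≠ 0 →
  (∀ x : ℂ, ‖x‖ < ρ → A.eval x ^ 2 * W x = H x ^ 2) → False

/-- TRN (short).  uses `EVL_stmt EO_stmt FLD_stmt WAN_stmt HAN_stmt ORD_stmt`.  If `ev P g = 0` for some `P ≠ 0`, `g = gs a`: FLD with `h = sq2 g` (`fe` is its first equation with `c`, `L`; EO is the last hypothesis) gives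
`A g = ev B h`; `W`, `H` of WAN, HAN; for `‖x‖ < ρ` the values are `A(x) U(x) = H(x)` (EVL for `P = C A * Y`), so `A(x)² W(x) = H(x)²`: ORD. -/
def TRN_stmt : Prop := ∀ (a : ℕ → ℤ) (c : ℕ) (L : Polynomial ℤ) (ρ : ℝ), Dat a c L ρ →
  ∀ P : Polynomial (Polynomial ℚ), P ≠ 0 → ev P (gs a) ≠ 0

/-! ## Part 3: Mahler's method -/

/-- POL (short).  (i) `pol k e ≠ 0`: its coefficient at `Y^j X^i` is `e i j`.  (ii) its value. -/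
def POL_stmt : Prop := (∀ (k : ℕ) (e : ℕ → ℕ → ℤ), (∃ i ≤ k, ∃ j ≤ k, e i j ≠ 0) → pol k e ≠ 0) ∧
  ∀ (k : ℕ) (e : ℕ → ℕ → ℤ) (x z : ℝ), (pol k e).eval₂ (phx (x : ℂ)) (z : ℂ) = ((val k e x z : ℝ) : ℂ)

/-- AUX (short to medium).  Linear algebra: `(k+1)²` unknowns, `k²` homogeneous equations over `ℚ`; clear denominators.  `ev (pol k e) g` is linear in `e` (extend the definition of `pol` to rational `e`). -/
def AUX_stmt : Prop := ∀ (g : PowerSeries ℚ) (k : ℕ), ∃ e : ℕ → ℕ → ℤ, (∃ i ≤ k, ∃ j ≤ k, e i j ≠ 0) ∧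
  ∀ m < k ^ 2, PowerSeries.coeff m (ev (pol k e) g) = 0

/-- SMV (medium).  uses `EVL_stmt POL_stmt`.  `F = ev (pol k e) (gs a) ≠ 0` has the order `M ≥ K`, `F_M ≠ 0`; with `s = ρ` the coefficients satisfy `∑ |F_m| ρ^m < ∞`.  For `x = ρ^(2^n) → 0`:
`val k e x (∑ a_m x^m) = ∑_{m ≥ M} F_m x^m = x^M (F_M + O(x))` (for `x ≤ ρ`: `|∑_{m>M} F_m x^m| ≤ (x/ρ)^(M+1) ∑ |F_m| ρ^m`). -/
def SMV_stmt : Prop := ∀ (a : ℕ → ℤ) (ρ : ℝ) (k K : ℕ) (e : ℕ → ℕ → ℤ), 0 < ρ → ρ < 1 → (Summable fun n => |(a n : ℝ)| * ρ ^ n) →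
  ev (pol k e) (gs a) ≠ 0 → (∀ m < K, PowerSeries.coeff m (ev (pol k e) (gs a)) = 0) →
  ∃ C : ℝ, 0 < C ∧ ∃ n0 : ℕ, ∀ n ≥ n0, val k e (ρ ^ 2 ^ n) (∑' m, (a m : ℝ) * (ρ ^ 2 ^ n) ^ m) ≠ 0 ∧
    |val k e (ρ ^ 2 ^ n) (∑' m, (a m : ℝ) * (ρ ^ 2 ^ n) ^ m)| ≤ C * (ρ ^ 2 ^ n) ^ K

/-- RZ (short).  From `fe` by the Cauchy product at `x = ρ^(2^n) ≤ ρ` and `z`. -/
def RZ_stmt : Prop := ∀ (a : ℕ → ℤ) (c : ℕ) (L : Polynomial ℤ) (ρ : ℝ), Dat a c L ρ →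
  (∑' m, (a m : ℝ) * (ρ ^ 2 ^ 0) ^ m) = 0 ∧ ∀ n : ℕ, (c : ℝ) * (∑' m, (a m : ℝ) * (ρ ^ 2 ^ (n + 1)) ^ m) =
    (∑' m, (a m : ℝ) * (ρ ^ 2 ^ n) ^ m) ^ 2 - (L.map (Int.castRingHom ℝ)).eval (ρ ^ 2 ^ n)

/-- NRM (short to medium).  The norm of `η` is a nonzero integer (`Algebra.isIntegral_norm`, `IsIntegrallyClosed.isIntegral_iff`), its absolute value is the product of the `‖σ η‖`
(`Algebra.norm_eq_prod_embeddings`, `NumberField.Embeddings.card`), one of the `σ` is `φ` followed by `ℝ → ℂ`. -/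
def NRM_stmt : Prop := ∀ (K : Type) [Field K] [NumberField K] (φ : K →+* ℝ) (η : K) (H : ℝ), IsIntegral ℤ η → η ≠ 0 → 1 ≤ H →
  (∀ σ : K →+* ℂ, ‖σ η‖ ≤ H) → 1 ≤ |φ η| * H ^ (Module.finrank ℚ K - 1)

/-- SEQ (medium).  Denominators: `q0 x` integral, `q0 ≥ 1` (`exists_integral_multiple`).  By induction `c^(2^n - 1) q0^(2^n) z n` is integral: `q_n = c^(2^n - 1) q0^(2^n)` satisfies `q_(n+1) = c q_n²`, so
`q_(n+1) z (n+1) = (q_n z n)² - q_n² L(x^(2^n))`, and `q_n² x^(2^n i)` is integral for `i ≤ 2`.  Take `q = c q0`.  Conjugates: `l` = the sum of the absolute values of the coefficients of `L`, `T ≥ 1 + l`, `T ≥ ‖σ x‖` for all `σ`; by induction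
`‖σ (z n)‖ ≤ T^(2^(n+1) - 1)`: `T^(2^(n+2) - 2) + l T^(2^(n+1)) ≤ (1 + l) T^(2^(n+2) - 2) ≤ T^(2^(n+2) - 1)`.  Take `B = T²`. -/
def SEQ_stmt : Prop := ∀ (K : Type) [Field K] [NumberField K] (x : K) (c : ℕ) (L : Polynomial ℤ) (z : ℕ → K), 1 ≤ c → L.natDegree ≤ 2 →
  z 0 = 0 → (∀ n, (c : K) * z (n + 1) = z n ^ 2 - Polynomial.aeval (x ^ 2 ^ n) L) →
  ∃ q B : ℕ, 1 ≤ q ∧ 1 ≤ B ∧ ∀ n, IsIntegral ℤ ((q : K) ^ 2 ^ n * x ^ 2 ^ n) ∧ IsIntegral ℤ ((q : K) ^ 2 ^ n * z n) ∧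
    ∀ σ : K →+* ℂ, ‖σ (x ^ 2 ^ n)‖ ≤ (B : ℝ) ^ 2 ^ n ∧ ‖σ (z n)‖ ≤ (B : ℝ) ^ 2 ^ n

/-- LIO (medium).  uses `NRM_stmt SEQ_stmt`.  `K = ℚ⟮ρ⟯` (`IntermediateField.adjoin ℚ {ρ}`, finite dimensional), `x = ρ`, `z` in `K` defined by the recursion; `φ` the inclusion, `φ (z n) = z n` by induction.
`η = (q^(2^n))^(2k) val` is integral (every term `e i j (q^(2^n) x_n)^i (q^(2^n) z_n)^j (q^(2^n))^(2k-i-j)`), `‖σ η‖ ≤ (k+1)² E (q B)^(2k 2^n)`, `E ≥ 1`, `E ≥ |e i j|` for `i, j ≤ k`.  NRM: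
`1 ≤ |val| ((k+1)² E)^D (q B)^(2 k D 2^n)`, `D = finrank`; `G = (q B)^(2D)`. -/
def LIO_stmt : Prop := ∀ (ρ : ℝ) (c : ℕ) (L : Polynomial ℤ) (z : ℕ → ℝ), IsAlgebraic ℚ ρ → 1 ≤ c → L.natDegree ≤ 2 → z 0 = 0 →
  (∀ n, (c : ℝ) * z (n + 1) = z n ^ 2 - (L.map (Int.castRingHom ℝ)).eval (ρ ^ 2 ^ n)) →
  ∃ G : ℝ, 1 ≤ G ∧ ∀ (k : ℕ) (e : ℕ → ℕ → ℤ), ∃ C : ℝ, 0 < C ∧ ∀ n, val k e (ρ ^ 2 ^ n) (z n) ≠ 0 →
    C ≤ |val k e (ρ ^ 2 ^ n) (z n)| * G ^ (k * 2 ^ n)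

/-- FIN (short to medium).  uses `TRN_stmt POL_stmt AUX_stmt SMV_stmt RZ_stmt LIO_stmt`.  If `ρ` is algebraic: `G` of LIO for `z n = ∑ a_m (ρ^(2^n))^m` (RZ).  Choose `k` with `G ρ^k < 1`; `e` of AUX for `gs a`; SMV with `K = k²`, LIO:
`C ≤ C' (ρ^(2^n))^(k²) G^(k 2^n) = C' ((G ρ^k)^k)^(2^n) → 0` (`k ≥ 1`): contradiction. -/
def FIN_stmt : Prop := ∀ (a : ℕ → ℤ) (c : ℕ) (L : Polynomial ℤ) (ρ : ℝ), Dat a c L ρ → Transcendental ℚ ρ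

/-- The final statement (assembly by helper35). -/
def THM_stmt : Prop := ∀ c0 c1 c2 : ℕ, 1 ≤ c0 → 1 ≤ c2 → ∃ α : ℝ, 1 < α ∧
  (∀ x : ℝ, 0 ≤ x → (Summable (fun n => (cnt c0 c1 c2 n : ℝ) * x ^ n) ↔ x ≤ 1 / α)) ∧
  (∀ x : ℝ, 0 < x → Summable (fun n => (cnt c0 c1 c2 n : ℝ) * x ^ n) →
    (c1 * x + c2 * x * (∑' n, (cnt c0 c1 c2 n : ℝ) * x ^ n) = 1 ↔ x = 1 / α)) ∧
  Transcendental ℚ α

end Pool.Agent.helper35.OT
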